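import Pool.Agent.Lib.NLT.Frm

/-!
# NLT / Gsk: relative Golod and Shafarevich, the kernel

PROOF IN WORDS. Model: `NLB/Gcu.lean`, `gs_ker_cu` (two derivatives there, the family `D i` here). Let `P` be the right-hand side. `x ↦ (fun i => D i x)` is linear, so it is enough to treat generators. `x ∈ Iw (n+1)`: `D i x ∈ Iw n` (`fr_mem`), in the `Submodule.pi` part.
`x = a * v * b`, `v ∈ V`: `b = s + y`, `s ∈ span T`, `y ∈ I` (`hT`, `Submodule.mem_sup`). `D i (a * v * y) = a * v * D i y ∈ Jd V` (`fr_mul` with `y ∈ I`). For `s`: linear in `s` (`Submodule.span_induction`), so `s = τ ∈ T`: `a * v * τ`, `v * τ ∈ I` (`hV`, `hI.r`), `D i (a * (v * τ)) = a * D i (v * τ)` (`fr_mul`), linear in `v`;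
by `hB.le n`: either `v ∈ B w`, `1 ≤ w ≤ n`: the family is `rg D (v * τ) a`; or `v ∈ Iw (n+1)`: `v * τ ∈ Iw (n+1)` (`Iw_two`), `D i (v * τ) ∈ Iw n` (`fr_mem`), `a * _ ∈ Iw n`.
-/

set_option autoImplicit false

namespace NLT

open NLB Module

variable (p : ℕ) [Fact p.Prime]

private noncomputable def gP (I V : Submodule (ZMod p) (R p)) {ι : Type} (D : ι → (R p →ₗ[ZMod p] R p)) (T : Finset (R p))
    (B : ℕ → Finset (R p)) (n : ℕ) : Submodule (ZMod p) (ι → R p) :=
  (Submodule.pi Set.univ (fun _ : ι => Jd p V ⊔ Iw p I n)) ⊔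
    ⨆ w ∈ Finset.Icc 1 n, ⨆ v ∈ B w, ⨆ τ ∈ T, LinearMap.range (rg p D (v * τ))

private theorem gP_pi {I V : Submodule (ZMod p) (R p)} {ι : Type} {D : ι → (R p →ₗ[ZMod p] R p)} {T : Finset (R p)}
    {B : ℕ → Finset (R p)} {n : ℕ} {f : ι → R p} (hf : ∀ i, f i ∈ Jd p V ⊔ Iw p I n) : f ∈ gP p I V D T B n :=
  Submodule.mem_sup_left fun i _ => hf i

private theorem gP_range {I V : Submodule (ZMod p) (R p)} {ι : Type} {D : ι → (R p →ₗ[ZMod p] R p)} {T : Finset (R p)}
    {B : ℕ → Finset (R p)} {n w : ℕ} (hw : w ∈ Finset.Icc 1 n) {v : R p} (hv : v ∈ B w) {τ : R p} (hτ : τ ∈ T) (a : R p) :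
    (fun i => a * D i (v * τ)) ∈ gP p I V D T B n := by
  refine Submodule.mem_sup_right ?_
  have h2 : (fun i => a * D i (v * τ)) ∈ LinearMap.range (rg p D (v * τ)) := ⟨a, rfl⟩
  refine Submodule.mem_iSup_of_mem w (Submodule.mem_iSup_of_mem hw ?_)
  refine Submodule.mem_iSup_of_mem v (Submodule.mem_iSup_of_mem hv ?_)
  exact Submodule.mem_iSup_of_mem τ (Submodule.mem_iSup_of_mem hτ h2)

private theorem gP_gen (I V : Submodule (ZMod p) (R p)) (hI : TwoSided p I) (hV : V ≤ I) {ι : Type} [Fintype ι] [DecidableEq ι]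
    (β : ι → R p) (D : ι → (R p →ₗ[ZMod p] R p)) (h : IsFr p I β D) (T : Finset (R p)) (B : ℕ → Finset (R p)) (hB : GenI p I V B)
    (n : ℕ) (a v τ : R p) (hv : v ∈ V) (hτ : τ ∈ T) : (fun i => D i (a * v * τ)) ∈ gP p I V D T B n := by
  let L : R p →ₗ[ZMod p] (ι → R p) :=
    LinearMap.pi fun i => (LinearMap.mulLeft (ZMod p) a).comp ((D i).comp (LinearMap.mulRight (ZMod p) τ))
  have hL : ∀ w, L w = fun i => a * D i (w * τ) := fun w => rfl
  have key : (⨆ w ∈ Finset.Icc 1 n, Submodule.span (ZMod p) (B w : Set (R p))) ⊔ Iw p I (n + 1) ≤ (gP p I V D T B n).comap L := by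
    refine sup_le (iSup₂_le fun m hm => Submodule.span_le.2 fun w hw => ?_) fun w hw => ?_
    · exact gP_range p hm hw hτ a
    · rw [Submodule.mem_comap, hL]
      refine gP_pi p fun i => Submodule.mem_sup_right ?_
      exact (Iw_two p I hI n).l a _ (fr_mem p I hI β D h i n _ ((Iw_two p I hI (n + 1)).r τ w hw))
  have h1 : (fun i => D i (a * v * τ)) = L v := by
    rw [hL]
    funext i
    rw [mul_assoc, fr_mul p I β D h i a (v * τ) (hI.r τ v (hV hv))]
  rw [h1]
  exact key (hB.le n hv)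

theorem gs_ker_rel (I V : Submodule (ZMod p) (R p)) (hI : TwoSided p I) (hV : V ≤ I) {ι : Type} [Fintype ι] [DecidableEq ι]
    (β : ι → R p) (D : ι → (R p →ₗ[ZMod p] R p)) (h : IsFr p I β D) (T : Finset (R p))
    (hT : ∀ x, x ∈ Submodule.span (ZMod p) (T : Set (R p)) ⊔ I) (B : ℕ → Finset (R p)) (hB : GenI p I V B) (n : ℕ) (x : R p)
    (hx : x ∈ Jd p V ⊔ Iw p I (n + 1)) :
    (fun i => D i x) ∈ (Submodule.pi Set.univ (fun _ : ι => Jd p V ⊔ Iw p I n)) ⊔
      ⨆ w ∈ Finset.Icc 1 n, ⨆ v ∈ B w, ⨆ τ ∈ T, LinearMap.range (rg p D (v * τ)) := by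
  let DD : R p →ₗ[ZMod p] (ι → R p) := LinearMap.pi D
  have hDD : ∀ w, DD w = fun i => D i w := fun w => rfl
  have hle : Jd p V ⊔ Iw p I (n + 1) ≤ (gP p I V D T B n).comap DD := by
    refine sup_le ?_ ?_
    · unfold Jd
      rw [Submodule.span_le]
      rintro _ ⟨a, b, v, hv, rfl⟩
      obtain ⟨s, hs, y, hy, rfl⟩ := Submodule.mem_sup.1 (hT b)
      show DD (a * v * (s + y)) ∈ gP p I V D T B n
      rw [mul_add, map_add]
      refine Submodule.add_mem _ ?_ ?_
      · have h1 : Submodule.span (ZMod p) (T : Set (R p)) ≤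
            (gP p I V D T B n).comap (DD.comp (LinearMap.mulLeft (ZMod p) (a * v))) :=
          Submodule.span_le.2 fun τ hτ => gP_gen p I V hI hV β D h T B hB n a v τ hv hτ
        exact h1 hs
      · rw [hDD]
        refine gP_pi p fun i => Submodule.mem_sup_left ?_
        rw [fr_mul p I β D h i (a * v) y hy]
        exact Submodule.subset_span ⟨a, D i y, v, hv, rfl⟩
    · intro w hw
      rw [Submodule.mem_comap, hDD]
      exact gP_pi p fun i => Submodule.mem_sup_right (fr_mem p I hI β D h i n w hw)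
  exact hle hx

end NLT
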