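import Pool.Agent.Lib.NLB.Spn

/-!
# NLT / Defs: Golod and Shafarevich relative to an ideal of finite codimension

`R p` is the group algebra of the free group `F2` of rank two over `ZMod p`, `u p g` the group element, `A p n` the powers of the augmentation
ideal, `Jd p V` the two-sided ideal generated by `V` (all from NLB).
-/

set_option autoImplicit false

namespace NLT

open NLB Module

variable (p : ℕ) [Fact p.Prime]

/-- a two-sided ideal -/
structure TwoSided (I : Submodule (ZMod p) (R p)) : Prop where
  l : ∀ a x : R p, x ∈ I → a * x ∈ I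
  r : ∀ a x : R p, x ∈ I → x * a ∈ I

/-- the powers of `I`, with `Iw 0 = ⊤` -/
noncomputable def Iw (I : Submodule (ZMod p) (R p)) : ℕ → Submodule (ZMod p) (R p)
  | 0 => ⊤
  | n + 1 => Iw I n * I

/-- `β` is a free basis of the left ideal `W`, with coordinates `D` (extended to linear maps on the algebra) -/
structure IsFr (W : Submodule (ZMod p) (R p)) {ι : Type} [Fintype ι] [DecidableEq ι] (β : ι → R p) (D : ι → (R p →ₗ[ZMod p] R p)) :
    Prop where
  mem : ∀ i, β i ∈ W
  fund : ∀ x ∈ W, x = ∑ i, D i x * β i
  dual : ∀ (i j : ι) (a : R p), D i (a * β j) = if i = j then a else 0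

/-- the dimension of the truncated quotient relative to `I` -/
noncomputable def bI (I V : Submodule (ZMod p) (R p)) (n : ℕ) : ℕ := finrank (ZMod p) (R p ⧸ (Jd p V ⊔ Iw p I n))

/-- `B w` lies in `Iw w`, and the `B w`, `1 ≤ w ≤ n`, generate `V` modulo `Iw (n+1)` -/
structure GenI (I V : Submodule (ZMod p) (R p)) (B : ℕ → Finset (R p)) : Prop where
  mem : ∀ w, ∀ v ∈ B w, v ∈ Iw p I w
  le : ∀ n, V ≤ (⨆ w ∈ Finset.Icc 1 n, Submodule.span (ZMod p) (B w : Set (R p))) ⊔ Iw p I (n + 1)

/-- the right-hand side of the kernel lemma: all families `(a * D i (v * τ))`, `a` arbitrary -/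
noncomputable def rg {ι : Type} (D : ι → (R p →ₗ[ZMod p] R p)) (z : R p) : R p →ₗ[ZMod p] (ι → R p) where
  toFun a := fun i => a * D i z
  map_add' a b := by funext i; simp [add_mul]
  map_smul' c a := by funext i; simp

/-- the kernel of the group algebra modulo a normal subgroup -/
noncomputable def IK (K : Subgroup F2) : Submodule (ZMod p) (R p) :=
  Submodule.span (ZMod p) {x | ∃ g k : F2, k ∈ K ∧ x = u p g * (u p k - 1)}

/-- the augmentation ideal -/
noncomputable def Dl : Submodule (ZMod p) (R p) := LinearMap.ker (eps p).toLinearMap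

/-- the group elements which are `1` modulo the ideal `Q` -/
def KS (Q : Submodule (ZMod p) (R p)) : Set F2 := {g | u p g - 1 ∈ Q}

/-- towers of exponentials -/
def tower (p : ℕ) : ℕ → ℕ
  | 0 => 1
  | b + 1 => p ^ tower p b

/-- a normal subgroup `K` of finite index at least `m`, whose quotient has exponent dividing `p^b` -/
structure Good (K : Subgroup F2) (b m : ℕ) : Prop where
  nor : K.Normal
  fin : K.FiniteIndex
  exp : ∀ g : F2, g ^ p ^ b ∈ K
  idx : m ≤ K.index

end NLT
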