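import Pool.Agent.Lib.NLT.Fre1

/-!
# NLT / Fre2: a left ideal of finite codimension which contains a power of the augmentation ideal is free

PROOF IN WORDS. Induction on `j = finrank (R ⧸ W)`, for all left ideals `W` with `A c ≤ W` (finite codimension: `fin_A p c`, `Submodule.factor`). `j = 0`: `W = ⊤` (`Submodule.Quotient.subsingleton_iff`, `finrank_zero_iff`), `ι = Unit`, `β = 1`, `D = id`.
`j + 1`: `W ≠ ⊤`; let `i` be the least number with `A (i+1) ≤ W` (`A 0 = ⊤` is not `≤ W`, `A c ≤ W`; `Nat.find`), so `A i` is not `≤ W`; take `x0 ∈ A i`, `x0 ∉ W`. For `a ∈ A 1`: `a * x0 ∈ A (i+1) ≤ W` (`mul_mem_A`). `W1 = W ⊔ span {x0}` is a left ideal (`a * x0 = (a - eps a) * x0 + eps a • x0`),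
`A c ≤ W1`, `finrank (R ⧸ W1) = j` (`Submodule.finrank_quotient_add_finrank` type arguments, or: `R ⧸ W → R ⧸ W1` is onto with kernel the line of `x0`). Apply the induction hypothesis to `W1` and then `fr_step p W1 W` (Fre1).
-/

set_option autoImplicit false

namespace NLT

open NLB Module

variable (p : ℕ) [Fact p.Prime]

private theorem fre2_fin (c : ℕ) (W : Submodule (ZMod p) (R p)) (hc : A p c ≤ W) :
    FiniteDimensional (ZMod p) (R p ⧸ W) := by
  have := fin_A p c
  exact Module.Finite.of_surjective (Submodule.factor hc) (Submodule.factor_surjective hc)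

private theorem fre2_rank (W : Submodule (ZMod p) (R p)) [FiniteDimensional (ZMod p) (R p ⧸ W)] (x0 : R p)
    (h : x0 ∉ W) : finrank (ZMod p) (R p ⧸ W) =
      finrank (ZMod p) (R p ⧸ (W ⊔ Submodule.span (ZMod p) {x0})) + 1 := by
  have hle : W ≤ W ⊔ Submodule.span (ZMod p) {x0} := le_sup_left
  have h1 := (Submodule.quotientQuotientEquivQuotient W (W ⊔ Submodule.span (ZMod p) {x0}) hle).finrank_eq
  have h2 : (W ⊔ Submodule.span (ZMod p) {x0}).map W.mkQ = Submodule.span (ZMod p) {W.mkQ x0} := by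
    rw [Submodule.map_sup, Submodule.mkQ_map_self, bot_sup_eq, Submodule.map_span, Set.image_singleton]
  have h3 : W.mkQ x0 ≠ 0 := by
    rw [Submodule.mkQ_apply, ne_eq, Submodule.Quotient.mk_eq_zero]
    exact h
  have h4 := Submodule.finrank_quotient_add_finrank ((W ⊔ Submodule.span (ZMod p) {x0}).map W.mkQ)
  rw [h1, h2, finrank_span_singleton h3] at h4
  exact h4.symm

private theorem fre2_ind (c : ℕ) : ∀ (j : ℕ) (W : Submodule (ZMod p) (R p)), (∀ a x : R p, x ∈ W → a * x ∈ W) →
    A p c ≤ W → finrank (ZMod p) (R p ⧸ W) = j →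
    ∃ (ι : Type) (_ : Fintype ι) (_ : DecidableEq ι) (β : ι → R p) (D : ι → (R p →ₗ[ZMod p] R p)),
      Fintype.card ι = j + 1 ∧ IsFr p W β D := by
  intro j
  induction j with
  | zero =>
    intro W hW hc hr
    have := fre2_fin p c W hc
    have h1 : Subsingleton (R p ⧸ W) := finrank_zero_iff.1 hr
    have h2 : W = ⊤ := Submodule.Quotient.subsingleton_iff.1 h1
    refine ⟨Unit, inferInstance, inferInstance, fun _ => 1, fun _ => LinearMap.id, by simp, ?_, ?_, ?_⟩
    · intro i
      rw [h2]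
      trivial
    · intro x _
      simp
    · intro i k a
      simp
  | succ j ih =>
    intro W hW hc hr
    have := fre2_fin p c W hc
    have hne : W ≠ ⊤ := by
      intro h
      have h1 : Subsingleton (R p ⧸ W) := Submodule.Quotient.subsingleton_iff.2 h
      rw [finrank_zero_iff.2 h1] at hr
      omega
    classical
    have hex : ∃ n, A p n ≤ W := ⟨c, hc⟩
    obtain ⟨i, hi⟩ : ∃ i, Nat.find hex = i + 1 := by
      refine Nat.exists_eq_succ_of_ne_zero fun h => hne ?_
      have h1 := Nat.find_spec hex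
      rw [h] at h1
      exact top_le_iff.1 h1
    have h1 : A p (i + 1) ≤ W := by
      rw [← hi]
      exact Nat.find_spec hex
    have h2 : ¬ A p i ≤ W := Nat.find_min hex (by omega)
    obtain ⟨x0, h3, h4⟩ := SetLike.not_le_iff_exists.1 h2
    have h5 : ∀ a ∈ A p 1, a * x0 ∈ W := by
      intro a ha
      refine h1 ?_
      rw [add_comm]
      exact mul_mem_A p ha h3
    have h6 : ∀ x ∈ W ⊔ Submodule.span (ZMod p) {x0}, ∃ k : ZMod p, x - k • x0 ∈ W := by
      intro x hx
      obtain ⟨w, hw, z, hz, rfl⟩ := Submodule.mem_sup.1 hx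
      obtain ⟨k, rfl⟩ := Submodule.mem_span_singleton.1 hz
      refine ⟨k, ?_⟩
      rw [add_sub_cancel_right]
      exact hw
    have h7 : x0 ∈ W ⊔ Submodule.span (ZMod p) {x0} :=
      Submodule.mem_sup_right (Submodule.mem_span_singleton_self x0)
    have h8 : ∀ a ∈ A p 1, ∀ x ∈ W ⊔ Submodule.span (ZMod p) {x0}, a * x ∈ W := by
      intro a ha x hx
      obtain ⟨k, hk⟩ := h6 x hx
      have h9 : a * x = a * (x - k • x0) + k • (a * x0) := by
        rw [mul_sub, mul_smul_comm, sub_add_cancel]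
      rw [h9]
      exact W.add_mem (hW a _ hk) (W.smul_mem k (h5 a ha))
    have h10 : ∀ a x : R p, x ∈ W ⊔ Submodule.span (ZMod p) {x0} →
        a * x ∈ W ⊔ Submodule.span (ZMod p) {x0} := by
      intro a x hx
      have h11 : a - eps p a • (1 : R p) ∈ A p 1 := by
        rw [mem_A_one, map_sub, map_smul, map_one, smul_eq_mul, mul_one, sub_self]
      have h12 : a * x = (a - eps p a • (1 : R p)) * x + eps p a • x := by
        rw [sub_mul, smul_mul_assoc, one_mul, sub_add_cancel]
      rw [h12]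
      exact Submodule.add_mem _ (Submodule.mem_sup_left (h8 _ h11 x hx)) (Submodule.smul_mem _ _ hx)
    have h13 := fre2_rank p W x0 h4
    obtain ⟨ι, i1, i2, β, D, h14, h15⟩ := ih (W ⊔ Submodule.span (ZMod p) {x0}) h10
      (hc.trans le_sup_left) (by omega)
    obtain ⟨κ, j1, j2, β', D', h16, h17⟩ := fr_step p (W ⊔ Submodule.span (ZMod p) {x0}) W h10 le_sup_left h8 x0
      h7 h4 h6 β D h15
    exact ⟨κ, j1, j2, β', D', by omega, h17⟩

theorem exists_fr (I : Submodule (ZMod p) (R p)) (hI : ∀ a x : R p, x ∈ I → a * x ∈ I) (c : ℕ) (hc : A p c ≤ I) :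
    ∃ (ι : Type) (_ : Fintype ι) (_ : DecidableEq ι) (β : ι → R p) (D : ι → (R p →ₗ[ZMod p] R p)),
      Fintype.card ι = finrank (ZMod p) (R p ⧸ I) + 1 ∧ IsFr p I β D := by
  exact fre2_ind p c _ I hI hc rfl

end NLT
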