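import Pool.Agent.Lib.NLT.Defs

/-!
# NLT / Ik: the kernel of the group algebra modulo a normal subgroup

PROOF IN WORDS. `u g * (u k - 1) = u (g*k) - u g`. `IK_two`: left: `u h * (u g * (u k - 1)) = u (h*g) * (u k - 1)`, and `a` is a combination of the `u h` (`span_u`, `Submodule.span_induction`); right: `u g * (u k - 1) * u h = u (g*h) * (u (h⁻¹*k*h) - 1)` and normality. `IK_le`: `eps (u g * (u k - 1)) = 0`. `IK_mem`: `g = 1`.
`IK_idx`: the linear map `ext p (fun g => Finsupp.single (QuotientGroup.mk g : F2 ⧸ K) (1 : ZMod p)) : R → (F2 ⧸ K →₀ ZMod p)` is onto and kills `u (g*k) - u g` (same left coset), so `Nat.card (F2 ⧸ K) = finrank (F2 ⧸ K →₀ ZMod p) ≤ finrank (R ⧸ IK)` (`Submodule.liftQ`, `LinearMap.finrank_le_finrank_of_surjective`).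
`IK_fin`: `R ⧸ IK` is spanned by the classes of `u (Quotient.out c)`, `c : F2 ⧸ K` (finite), because `u g ≡ u (g*k)` and the `u g` span.
-/

set_option autoImplicit false

namespace NLT

open NLB Module

variable (p : ℕ) [Fact p.Prime]

private theorem ik_ind (P : R p → Prop) (h0 : P 0) (ha : ∀ a b, P a → P b → P (a + b))
    (hs : ∀ (c : ZMod p) (a : R p), P a → P (c • a)) (hu : ∀ g, P (u p g)) (a : R p) : P a := by
  have h : a ∈ Submodule.span (ZMod p) (Set.range (u p)) := by
    rw [span_u]
    exact Submodule.mem_top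
  induction h using Submodule.span_induction with
  | mem x hx =>
    obtain ⟨g, rfl⟩ := hx
    exact hu g
  | zero => exact h0
  | add x y _ _ hx hy => exact ha x y hx hy
  | smul c x _ hx => exact hs c x hx

private theorem ik_gen (g k : F2) : u p g * (u p k - 1) = u p (g * k) - u p g := by
  rw [mul_sub, mul_one, u_mul]

private theorem ik_sub (K : Subgroup F2) (g k : F2) (hk : k ∈ K) : u p (g * k) - u p g ∈ IK p K :=
  Submodule.subset_span ⟨g, k, hk, (ik_gen p g k).symm⟩

theorem IK_two (K : Subgroup F2) (hK : K.Normal) : TwoSided p (IK p K) := by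
  constructor
  · intro a x hx
    refine ik_ind p (fun a => a * x ∈ IK p K) ?_ ?_ ?_ ?_ a
    · rw [zero_mul]
      exact Submodule.zero_mem _
    · intro a b ha hb
      rw [add_mul]
      exact Submodule.add_mem _ ha hb
    · intro c a ha
      rw [smul_mul_assoc]
      exact Submodule.smul_mem _ _ ha
    · intro h
      unfold IK at hx
      induction hx using Submodule.span_induction with
      | mem x hx =>
        obtain ⟨g, k, hk, rfl⟩ := hx
        rw [← mul_assoc, ← u_mul, ik_gen]
        exact ik_sub p K _ _ hk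
      | zero =>
        rw [mul_zero]
        exact Submodule.zero_mem _
      | add x y _ _ hx hy =>
        rw [mul_add]
        exact Submodule.add_mem _ hx hy
      | smul c x _ hx =>
        rw [mul_smul_comm]
        exact Submodule.smul_mem _ _ hx
  · intro a x hx
    refine ik_ind p (fun a => x * a ∈ IK p K) ?_ ?_ ?_ ?_ a
    · rw [mul_zero]
      exact Submodule.zero_mem _
    · intro a b ha hb
      rw [mul_add]
      exact Submodule.add_mem _ ha hb
    · intro c a ha
      rw [mul_smul_comm]
      exact Submodule.smul_mem _ _ ha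
    · intro h
      unfold IK at hx
      induction hx using Submodule.span_induction with
      | mem x hx =>
        obtain ⟨g, k, hk, rfl⟩ := hx
        have h1 : h⁻¹ * k * h ∈ K := by
          have h2 := hK.conj_mem k hk h⁻¹
          rwa [inv_inv] at h2
        have h3 : u p g * (u p k - 1) * u p h = u p (g * h * (h⁻¹ * k * h)) - u p (g * h) := by
          rw [ik_gen, sub_mul, ← u_mul, ← u_mul]
          congr 2
          group
        rw [h3]
        exact ik_sub p K _ _ h1
      | zero =>
        rw [zero_mul]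
        exact Submodule.zero_mem _
      | add x y _ _ hx hy =>
        rw [add_mul]
        exact Submodule.add_mem _ hx hy
      | smul c x _ hx =>
        rw [smul_mul_assoc]
        exact Submodule.smul_mem _ _ hx

theorem IK_le (K : Subgroup F2) : IK p K ≤ Dl p := by
  refine Submodule.span_le.2 ?_
  rintro x ⟨g, k, -, rfl⟩
  show (eps p).toLinearMap (u p g * (u p k - 1)) = 0
  rw [AlgHom.toLinearMap_apply, map_mul, map_sub, eps_u, eps_u, map_one, sub_self, mul_zero]

theorem IK_mem (K : Subgroup F2) (k : F2) (hk : k ∈ K) : u p k - 1 ∈ IK p K := by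
  exact Submodule.subset_span ⟨1, k, hk, by rw [u_one, one_mul]⟩

theorem IK_fin (K : Subgroup F2) (hf : K.FiniteIndex) : FiniteDimensional (ZMod p) (R p ⧸ IK p K) := by
  haveI : Finite (F2 ⧸ K) := Subgroup.finite_quotient_of_finiteIndex
  let v : F2 ⧸ K → R p ⧸ IK p K := fun c => (IK p K).mkQ (u p c.out)
  have hsp : Submodule.span (ZMod p) (Set.range v) = ⊤ := by
    rw [eq_top_iff]
    intro x _
    obtain ⟨a, rfl⟩ := Submodule.mkQ_surjective _ x
    refine ik_ind p (fun a => (IK p K).mkQ a ∈ Submodule.span (ZMod p) (Set.range v)) ?_ ?_ ?_ ?_ a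
    · rw [map_zero]
      exact Submodule.zero_mem _
    · intro a b ha hb
      rw [map_add]
      exact Submodule.add_mem _ ha hb
    · intro c a ha
      rw [map_smul]
      exact Submodule.smul_mem _ _ ha
    · intro g
      obtain ⟨k, hk⟩ := QuotientGroup.mk_out_eq_mul K g
      have h1 : (IK p K).mkQ (u p g) = v (QuotientGroup.mk g) := by
        show (IK p K).mkQ (u p g) = (IK p K).mkQ (u p (QuotientGroup.mk g : F2 ⧸ K).out)
        rw [hk, eq_comm, ← sub_eq_zero, ← map_sub, Submodule.mkQ_apply, Submodule.Quotient.mk_eq_zero]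
        exact ik_sub p K g k k.2
      rw [h1]
      exact Submodule.subset_span ⟨_, rfl⟩
  refine Module.Finite.of_surjective (Finsupp.linearCombination (ZMod p) v) ?_
  rw [← LinearMap.range_eq_top, Finsupp.range_linearCombination, hsp]

theorem IK_idx (K : Subgroup F2) (hf : K.FiniteIndex) : K.index ≤ finrank (ZMod p) (R p ⧸ IK p K) := by
  haveI : Finite (F2 ⧸ K) := Subgroup.finite_quotient_of_finiteIndex
  haveI := IK_fin p K hf
  letI : Fintype (F2 ⧸ K) := Fintype.ofFinite _
  let φ : R p →ₗ[ZMod p] (F2 ⧸ K →₀ ZMod p) :=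
    ext p (fun g => Finsupp.single (QuotientGroup.mk g : F2 ⧸ K) (1 : ZMod p))
  have hφ : ∀ g, φ (u p g) = Finsupp.single (QuotientGroup.mk g : F2 ⧸ K) (1 : ZMod p) := fun g => ext_u p _ g
  have hle : IK p K ≤ LinearMap.ker φ := by
    refine Submodule.span_le.2 ?_
    rintro x ⟨g, k, hk, rfl⟩
    show φ (u p g * (u p k - 1)) = 0
    rw [ik_gen, map_sub, hφ, hφ, QuotientGroup.mk_mul_of_mem g hk, sub_self]
  have hsurj : Function.Surjective ((IK p K).liftQ φ hle) := by
    rw [← LinearMap.range_eq_top, eq_top_iff]
    intro x _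
    induction x using Finsupp.induction_linear with
    | zero => exact Submodule.zero_mem _
    | add x y hx hy => exact Submodule.add_mem _ (hx Submodule.mem_top) (hy Submodule.mem_top)
    | single c t =>
      obtain ⟨g, rfl⟩ := QuotientGroup.mk_surjective c
      refine ⟨(IK p K).mkQ (t • u p g), ?_⟩
      rw [Submodule.mkQ_apply, Submodule.liftQ_apply, map_smul, hφ, Finsupp.smul_single, smul_eq_mul, mul_one]
  have h1 := LinearMap.finrank_le_finrank_of_surjective hsurj
  rw [Module.finrank_finsupp_self, ← Nat.card_eq_fintype_card] at h1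
  exact h1

end NLT
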