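import Pool.Agent.Lib.NLT.Defs

/-!
# NLT / Ksg: the subgroup of the elements which are one modulo an ideal

PROOF IN WORDS. `K = {g | u g - 1 ∈ Q}`: closed under products (`u (g*h) - 1 = (u g - 1) * u h + (u h - 1)`), inverses (`u g⁻¹ - 1 = -(u g⁻¹ * (u g - 1))`), conjugation (`u (h*g*h⁻¹) - 1 = u h * (u g - 1) * u h⁻¹`). Finite index: `R ⧸ Q` is finite (`A c ≤ Q`, `fin_A`, `Module.finite_of_finite`), and `g ↦ [u g]` separates the cosets: if `[u g] = [u h]` then `u (g⁻¹ * h) - 1 = u g⁻¹ * (u h - u g) ∈ Q`. (`Subgroup.finiteIndex_of_finite_quotient` or similar.)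
-/

set_option autoImplicit false

namespace NLT

open NLB Module

variable (p : ℕ) [Fact p.Prime]

theorem exists_KS (Q : Submodule (ZMod p) (R p)) (hQ : TwoSided p Q) (c : ℕ) (hc : A p c ≤ Q) :
    ∃ K : Subgroup F2, (∀ g, g ∈ K ↔ u p g - 1 ∈ Q) ∧ K.Normal ∧ K.FiniteIndex := by
  let K : Subgroup F2 :=
    { carrier := {g | u p g - 1 ∈ Q}
      mul_mem' := by
        intro g h hg hh
        change u p (g * h) - 1 ∈ Q
        have h1 : u p (g * h) - 1 = (u p g - 1) * u p h + (u p h - 1) := by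
          rw [u_mul, sub_mul, one_mul]
          abel
        rw [h1]
        exact Q.add_mem (hQ.r _ _ hg) hh
      one_mem' := by
        change u p 1 - 1 ∈ Q
        rw [u_one, sub_self]
        exact Q.zero_mem
      inv_mem' := by
        intro g hg
        change u p g⁻¹ - 1 ∈ Q
        have h1 : u p g⁻¹ - 1 = -(u p g⁻¹ * (u p g - 1)) := by
          rw [mul_sub, u_inv_mul, mul_one]
          abel
        rw [h1]
        exact Q.neg_mem (hQ.l _ _ hg) }
  have hK : ∀ g, g ∈ K ↔ u p g - 1 ∈ Q := fun g => Iff.rfl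
  refine ⟨K, hK, ⟨?_⟩, ?_⟩
  · intro g hg h
    rw [hK] at hg ⊢
    have h1 : u p (h * g * h⁻¹) - 1 = u p h * (u p g - 1) * u p h⁻¹ := by
      rw [mul_sub, mul_one, sub_mul, ← u_mul, ← u_mul, u_mul_inv]
    rw [h1]
    exact hQ.r _ _ (hQ.l _ _ hg)
  · have hfd : FiniteDimensional (ZMod p) (R p ⧸ A p c) := fin_A p c
    have hfin : Finite (R p ⧸ A p c) := Module.finite_of_finite (ZMod p)
    have hfQ : Finite (R p ⧸ Q) :=
      Finite.of_surjective (Submodule.factor hc) (Submodule.factor_surjective hc)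
    have hquot : Finite (F2 ⧸ K) := by
      refine Finite.of_injective (fun x : F2 ⧸ K => Submodule.Quotient.mk (p := Q) (u p x.out)) ?_
      intro x y hxy
      have h1 : u p x.out - u p y.out ∈ Q := (Submodule.Quotient.eq Q).1 hxy
      have h2 : x.out⁻¹ * y.out ∈ K := by
        rw [hK]
        have h3 : u p (x.out⁻¹ * y.out) - 1 = -(u p x.out⁻¹ * (u p x.out - u p y.out)) := by
          rw [mul_sub, u_inv_mul, ← u_mul]
          abel
        rw [h3]
        exact Q.neg_mem (hQ.l _ _ h1)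
      rw [← QuotientGroup.out_eq' x, ← QuotientGroup.out_eq' y]
      exact QuotientGroup.eq.2 h2
    exact Subgroup.finiteIndex_of_finite_quotient

end NLT
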