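import Pool.Agent.Lib.NLT.Ik

/-!
# NLT / Nil: the augmentation ideal is nilpotent modulo a normal subgroup with quotient a p-group

PROOF IN WORDS. Let `Z` be a right invariant subspace containing `IK`. If `Z ≠ ⊤`, the group acts on the finite nonzero space `R ⧸ Z` by right multiplication
through a `p`-group, so there is a nonzero fixed vector, and `Z' = {y | y * (u g - 1) ∈ Z for all g}` is right invariant and larger than `Z`. By induction on the
codimension `A c ≤ Z'` for some `c`, and `A (c+1) = A c * I ≤ Z` because `I` is spanned by the `u g - 1`.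
-/

set_option autoImplicit false

namespace NLT

open NLB Module

variable (p : ℕ) [Fact p.Prime]

private theorem fix_vec {V : Type} [AddCommGroup V] [Module (ZMod p) V] [Finite V] [Nontrivial V]
    (ρ : F2 →* Module.End (ZMod p) V) (b : ℕ) (hb : ∀ g : F2, ρ (g ^ p ^ b) = 1) :
    ∃ v : V, v ≠ 0 ∧ ∀ g, ρ g v = v := by
  have hG : IsPGroup p (ρ.toHomUnits).range := by
    rintro ⟨_, g, rfl⟩
    refine ⟨b, ?_⟩
    apply Subtype.ext
    show (ρ.toHomUnits g) ^ p ^ b = 1
    rw [← map_pow]
    apply Units.ext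
    exact hb g
  have hcard : p ∣ Nat.card V := by
    rw [Module.natCard_eq_pow_finrank (K := ZMod p), Nat.card_zmod]
    exact dvd_pow_self _ (Module.finrank_pos (R := ZMod p) (M := V)).ne'
  obtain ⟨v, hv, hne⟩ := hG.exists_fixed_point_of_prime_dvd_card_of_fixed_point V hcard (a := 0) (by
    rintro ⟨_, g, rfl⟩
    show ρ g 0 = 0
    exact map_zero _)
  refine ⟨v, hne.symm, fun g => hv ⟨_, g, rfl⟩⟩

/-- the elements which the augmentation ideal maps into `Z` from the right -/
private noncomputable def nx (Z : Submodule (ZMod p) (R p)) : Submodule (ZMod p) (R p) :=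
  ⨅ g : F2, Z.comap (LinearMap.mulRight (ZMod p) (u p g - 1))

private theorem mem_nx (Z : Submodule (ZMod p) (R p)) (y : R p) : y ∈ nx p Z ↔ ∀ g : F2, y * (u p g - 1) ∈ Z := by
  unfold nx
  rw [Submodule.mem_iInf]
  exact Iff.rfl

private theorem nx_r (Z : Submodule (ZMod p) (R p)) (a x : R p) (hx : x ∈ nx p Z) : x * a ∈ nx p Z := by
  have ha : a ∈ Submodule.span (ZMod p) (Set.range (u p)) := by
    rw [span_u]
    exact Submodule.mem_top
  induction ha using Submodule.span_induction with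
  | mem y hy =>
    obtain ⟨h, rfl⟩ := hy
    rw [mem_nx] at hx ⊢
    intro g
    have h1 := Z.sub_mem (hx (h * g)) (hx h)
    have h2 : x * (u p (h * g) - 1) - x * (u p h - 1) = x * u p h * (u p g - 1) := by
      rw [u_mul]
      noncomm_ring
    rwa [h2] at h1
  | zero =>
    rw [mul_zero]
    exact Submodule.zero_mem _
  | add y z _ _ hy hz =>
    rw [mul_add]
    exact Submodule.add_mem _ hy hz
  | smul c y _ hy =>
    rw [mul_smul_comm]
    exact Submodule.smul_mem _ c hy

private theorem aug_span (i : R p) (hi : eps p i = 0) :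
    i ∈ Submodule.span (ZMod p) {x | ∃ g : F2, x = u p g - 1} := by
  have key : ∀ a : R p, a - algebraMap (ZMod p) (R p) (eps p a) ∈ Submodule.span (ZMod p) {x | ∃ g : F2, x = u p g - 1} := by
    intro a
    have ha : a ∈ Submodule.span (ZMod p) (Set.range (u p)) := by
      rw [span_u]
      exact Submodule.mem_top
    induction ha using Submodule.span_induction with
    | mem y hy =>
      obtain ⟨h, rfl⟩ := hy
      rw [eps_u, map_one]
      exact Submodule.subset_span ⟨h, rfl⟩
    | zero =>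
      rw [map_zero, map_zero, sub_zero]
      exact Submodule.zero_mem _
    | add y z _ _ hy hz =>
      rw [map_add, map_add, add_sub_add_comm]
      exact Submodule.add_mem _ hy hz
    | smul c y _ hy =>
      have h1 := Submodule.smul_mem _ c hy
      have h2 : c • (y - algebraMap (ZMod p) (R p) (eps p y)) = c • y - algebraMap (ZMod p) (R p) (eps p (c • y)) := by
        rw [smul_sub, map_smul, smul_eq_mul, map_mul, Algebra.smul_def c (algebraMap (ZMod p) (R p) (eps p y))]
      rwa [h2] at h1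
  have h := key i
  rwa [hi, map_zero, sub_zero] at h

private theorem nx_mul (Z : Submodule (ZMod p) (R p)) (x i : R p) (hx : x ∈ nx p Z) (hi : eps p i = 0) : x * i ∈ Z := by
  have h := aug_span p i hi
  clear hi
  induction h using Submodule.span_induction with
  | mem y hy =>
    obtain ⟨g, rfl⟩ := hy
    exact (mem_nx p Z x).1 hx g
  | zero =>
    rw [mul_zero]
    exact Submodule.zero_mem _
  | add y z _ _ hy hz =>
    rw [mul_add]
    exact Submodule.add_mem _ hy hz
  | smul c y _ hy =>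
    rw [mul_smul_comm]
    exact Submodule.smul_mem _ c hy

/-- right multiplication on the quotient -/
private noncomputable def rh (Z : Submodule (ZMod p) (R p)) (hr : ∀ a x : R p, x ∈ Z → x * a ∈ Z) :
    F2 →* Module.End (ZMod p) (R p ⧸ Z) where
  toFun g := Z.mapQ Z (LinearMap.mulRight (ZMod p) (u p g⁻¹)) fun x hx => hr _ _ hx
  map_one' := by
    apply LinearMap.ext
    intro x
    obtain ⟨x, rfl⟩ := Submodule.mkQ_surjective Z x
    show Z.mkQ (x * u p (1 : F2)⁻¹) = Z.mkQ x
    rw [inv_one, u_one, mul_one]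
  map_mul' g h := by
    apply LinearMap.ext
    intro x
    obtain ⟨x, rfl⟩ := Submodule.mkQ_surjective Z x
    show Z.mkQ (x * u p (g * h)⁻¹) = Z.mkQ (x * u p h⁻¹ * u p g⁻¹)
    rw [mul_inv_rev, u_mul, mul_assoc]

private theorem step (K : Subgroup F2) (hK : K.Normal) (b : ℕ) (hb : ∀ g : F2, g ^ p ^ b ∈ K)
    (Z : Submodule (ZMod p) (R p)) (hZ : IK p K ≤ Z) (hr : ∀ a x : R p, x ∈ Z → x * a ∈ Z) (hfin : FiniteDimensional (ZMod p) (R p ⧸ Z))
    (hne : Z ≠ ⊤) : ∃ x, x ∈ nx p Z ∧ x ∉ Z := by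
  have hF : Finite (R p ⧸ Z) := Module.finite_of_finite (ZMod p)
  have hN : Nontrivial (R p ⧸ Z) := Submodule.Quotient.nontrivial_iff.2 hne
  obtain ⟨v, hv0, hv⟩ := fix_vec p (rh p Z hr) b (by
    intro g
    apply LinearMap.ext
    intro x
    obtain ⟨x, rfl⟩ := Submodule.mkQ_surjective Z x
    show Z.mkQ (x * u p (g ^ p ^ b)⁻¹) = Z.mkQ x
    rw [← sub_eq_zero, ← map_sub, Submodule.mkQ_apply, Submodule.Quotient.mk_eq_zero]
    have h1 := IK_mem p K (g ^ p ^ b)⁻¹ (K.inv_mem (hb g))
    have h2 := (IK_two p K hK).l x _ h1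
    rw [mul_sub, mul_one] at h2
    exact hZ h2)
  obtain ⟨x, rfl⟩ := Submodule.mkQ_surjective Z v
  refine ⟨x, (mem_nx p Z x).2 fun g => ?_, fun hx => hv0 ?_⟩
  · have h1 : Z.mkQ (x * u p (g⁻¹)⁻¹) = Z.mkQ x := hv g⁻¹
    rw [inv_inv, ← sub_eq_zero, ← map_sub, Submodule.mkQ_apply, Submodule.Quotient.mk_eq_zero] at h1
    rwa [mul_sub, mul_one]
  · rw [Submodule.mkQ_apply, Submodule.Quotient.mk_eq_zero]
    exact hx

private theorem fr_lt (Z Z' : Submodule (ZMod p) (R p)) (h : Z ≤ Z') (hfin : FiniteDimensional (ZMod p) (R p ⧸ Z)) (x : R p)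
    (hx : x ∈ Z') (hx' : x ∉ Z) : finrank (ZMod p) (R p ⧸ Z') < finrank (ZMod p) (R p ⧸ Z) := by
  have h1 := (Submodule.factor h).finrank_range_add_finrank_ker
  have h2 : LinearMap.range (Submodule.factor h) = ⊤ := LinearMap.range_eq_top.2 (Submodule.factor_surjective h)
  rw [h2, finrank_top] at h1
  have h3 : Nontrivial (LinearMap.ker (Submodule.factor h)) := by
    refine ⟨⟨⟨Z.mkQ x, ?_⟩, 0, fun h4 => hx' ?_⟩⟩
    · rw [LinearMap.mem_ker]
      show Z'.mkQ x = 0
      rw [Submodule.mkQ_apply, Submodule.Quotient.mk_eq_zero]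
      exact hx
    · have h5 : Z.mkQ x = 0 := congrArg Subtype.val h4
      rwa [Submodule.mkQ_apply, Submodule.Quotient.mk_eq_zero] at h5
  have h4 := Module.finrank_pos (R := ZMod p) (M := LinearMap.ker (Submodule.factor h))
  omega

private theorem nil_aux (K : Subgroup F2) (hK : K.Normal) (hf : K.FiniteIndex) (b : ℕ) (hb : ∀ g : F2, g ^ p ^ b ∈ K) (n : ℕ) :
    ∀ Z : Submodule (ZMod p) (R p), IK p K ≤ Z → (∀ a x : R p, x ∈ Z → x * a ∈ Z) → finrank (ZMod p) (R p ⧸ Z) ≤ n →
      ∃ c, A p c ≤ Z := by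
  induction n with
  | zero =>
    intro Z hZ hr hn
    refine ⟨0, fun x _ => ?_⟩
    by_contra hx
    have hfin : FiniteDimensional (ZMod p) (R p ⧸ Z) := by
      have := IK_fin p K hf
      exact Module.Finite.of_surjective (Submodule.factor hZ) (Submodule.factor_surjective hZ)
    have := fr_lt p Z ⊤ le_top hfin x Submodule.mem_top hx
    omega
  | succ n ih =>
    intro Z hZ hr hn
    by_cases hne : Z = ⊤
    · exact ⟨0, by rw [hne]; exact le_top⟩
    have hfin : FiniteDimensional (ZMod p) (R p ⧸ Z) := by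
      have := IK_fin p K hf
      exact Module.Finite.of_surjective (Submodule.factor hZ) (Submodule.factor_surjective hZ)
    obtain ⟨x, hx, hx'⟩ := step p K hK b hb Z hZ hr hfin hne
    have hle : Z ≤ nx p Z := fun y hy => (mem_nx p Z y).2 fun g => hr _ _ hy
    have h1 := fr_lt p Z (nx p Z) hle hfin x hx hx'
    obtain ⟨c, hc⟩ := ih (nx p Z) (hZ.trans hle) (fun a x hx => nx_r p Z a x hx) (by omega)
    refine ⟨c + 1, ?_⟩
    show A p c * LinearMap.ker (eps p).toLinearMap ≤ Z
    rw [Submodule.mul_le]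
    intro m hm i hi
    exact nx_mul p Z m i (hc hm) hi

theorem nil_IK (K : Subgroup F2) (hK : K.Normal) (hf : K.FiniteIndex) (b : ℕ) (hb : ∀ g : F2, g ^ p ^ b ∈ K) :
    ∃ c, A p c ≤ IK p K :=
  nil_aux p K hK hf b hb _ (IK p K) le_rfl (fun a x hx => (IK_two p K hK).r a x hx) le_rfl

end NLT
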