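import Pool.Agent.Lib.NLT.Defs
import Pool.Agent.Lib.NLB.Tor

/-!
# NLT / Num2: numbers

PROOF IN WORDS. `t = 2 / (m + 1)`, so `(m+1) t - 1 = 1` and `t < 1` (`m ≥ 16`). `m * 2^(N+1) * t^2 = 2^(N+3) * m / (m+1)^2 ≤ 2^(N+3) / m ≤ 1/2`. `m * ∑_(s0 ≤ w ≤ M) t^w ≤ m * t^s0 / (1 - t) ≤ 1/2` for `s0` large.
-/

set_option autoImplicit false

namespace NLT

open NLB Module

theorem num2 (m N : ℕ) (h : 2 ^ (N + 4) ≤ m) : ∃ (t : ℝ) (s0 : ℕ), 0 < t ∧ t < 1 ∧ 1 ≤ s0 ∧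
    ∀ M, ∑ w ∈ Finset.Icc 1 M, ((m * ((if w = 2 then 2 ^ (N + 1) else 0) + (if s0 ≤ w then 1 else 0)) : ℕ) : ℝ) * t ^ w ≤
      ((m + 1 : ℕ) : ℝ) * t - 1 := by
  have hm16 : 16 ≤ m := le_trans (by
    calc 16 = 2 ^ 4 := by norm_num
      _ ≤ 2 ^ (N + 4) := Nat.pow_le_pow_right (by norm_num) (by omega)) h
  have hm : (16 : ℝ) ≤ m := by exact_mod_cast hm16
  have hm0 : (0 : ℝ) < (m : ℝ) + 1 := by linarith
  have ht : (0 : ℝ) < 2 / ((m : ℝ) + 1) := by positivity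
  have ht1 : 2 / ((m : ℝ) + 1) < 1 := by
    rw [div_lt_one hm0]
    linarith
  obtain ⟨s, hs⟩ := exists_pow_lt_of_lt_one (show (0 : ℝ) < (1 - 2 / ((m : ℝ) + 1)) / (2 * m) from
    div_pos (sub_pos.2 ht1) (by linarith)) ht1
  refine ⟨2 / ((m : ℝ) + 1), s + 1, ht, ht1, by omega, fun M => ?_⟩
  set t : ℝ := 2 / ((m : ℝ) + 1) with htdef
  have h1 : ((m + 1 : ℕ) : ℝ) * t - 1 = 1 := by
    push_cast
    rw [htdef]
    field_simp
    norm_num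
  rw [h1]
  have hsplit : ∑ w ∈ Finset.Icc 1 M, ((m * ((if w = 2 then 2 ^ (N + 1) else 0) + (if s + 1 ≤ w then 1 else 0)) : ℕ) : ℝ) * t ^ w =
      ∑ w ∈ Finset.Icc 1 M, (if w = 2 then (m : ℝ) * 2 ^ (N + 1) * t ^ 2 else 0) +
      m * ∑ w ∈ Finset.Icc 1 M, ((if s + 1 ≤ w then 1 else 0 : ℕ) : ℝ) * t ^ w := by
    rw [Finset.mul_sum, ← Finset.sum_add_distrib]
    refine Finset.sum_congr rfl fun w _ => ?_
    by_cases hw : w = 2
    · subst hw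
      simp only [if_true]
      push_cast
      ring
    · simp only [hw, if_false]
      push_cast
      ring
  rw [hsplit]
  have h2 : ∑ w ∈ Finset.Icc 1 M, (if w = 2 then (m : ℝ) * 2 ^ (N + 1) * t ^ 2 else 0) ≤ (m : ℝ) * 2 ^ (N + 1) * t ^ 2 := by
    rw [Finset.sum_ite_eq']
    split_ifs
    · exact le_rfl
    · positivity
  have hN : (2 : ℝ) ^ (N + 1) * 8 ≤ m := by
    have : (2 : ℝ) ^ (N + 4) ≤ m := by exact_mod_cast h
    calc (2 : ℝ) ^ (N + 1) * 8 = 2 ^ (N + 4) := by ring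
      _ ≤ m := this
  have h3 : (m : ℝ) * 2 ^ (N + 1) * t ^ 2 ≤ 1 / 2 := by
    rw [htdef, div_pow]
    rw [mul_div_assoc', div_le_iff₀ (by positivity)]
    nlinarith [pow_pos (show (0 : ℝ) < 2 by norm_num) (N + 1)]
  have h4 : (m : ℝ) * ∑ w ∈ Finset.Icc 1 M, ((if s + 1 ≤ w then 1 else 0 : ℕ) : ℝ) * t ^ w ≤ 1 / 2 := by
    have h5 := tail_sum t ht ht1 (s + 1) M
    have h6 : t ^ (s + 1) ≤ (1 - t) / (2 * m) := by
      have : t ^ (s + 1) ≤ t ^ s := pow_le_pow_of_le_one ht.le ht1.le (Nat.le_succ s)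
      exact this.trans hs.le
    have h7 : t ^ (s + 1) / (1 - t) ≤ 1 / (2 * m) := by
      rw [div_le_iff₀ (sub_pos.2 ht1)]
      calc t ^ (s + 1) ≤ (1 - t) / (2 * m) := h6
        _ = 1 / (2 * m) * (1 - t) := by ring
    calc (m : ℝ) * ∑ w ∈ Finset.Icc 1 M, ((if s + 1 ≤ w then 1 else 0 : ℕ) : ℝ) * t ^ w ≤ m * (1 / (2 * m)) :=
          mul_le_mul_of_nonneg_left (h5.trans h7) (by linarith)
      _ = 1 / 2 := by
          field_simp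
  linarith

end NLT
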