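import Pool.Agent.Lib.NLT.Mul

/-!
# NLT / Rel: the relators

PROOF IN WORDS. `f : ℕ → F2` onto (`NLB.countable_F2` in `Pool.Agent.Lib.NLB.Tor`: `∃ f : ℕ → F2, Function.Surjective f`; import that file, or enumerate: `F2` is countable). For `j` and `g`: `u g ^ p^(b+j) - 1 = (u g ^ p^b - 1) ^ p^j` (characteristic `p`, as in `NLB/Act.lean`: `CharP (R p) p`, `sub_pow_char_pow_of_commute`), in `Iw (p^j) ≤ Iw j` (`Iw_pow`, `Iw_anti`, `Nat.lt_pow_self`).
`W` = the finite set of the `u (pw l) ^ p^(b+1) - 1`, `l.length ≤ N` (image of the lists of length `≤ N`; at most `2^(N+1)`), `W ⊆ Iw 2` because `p ≥ 2` (`Iw (p^1) ≤ Iw 2`). `tr w = u (f (w - s0)) ^ p^(b+w) - 1 ∈ Iw w`. `B w = (if w = 2 then W else ∅) ∪ (if s0 ≤ w then {tr w} else ∅)`, `V = span (W ∪ {tr w | s0 ≤ w})`.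
`V ≤ I`: `Iw w ≤ Iw 1 = I` for `w ≥ 1` (`s0 ≥ 1`). `GenI.le n`: a generator in `B w` with `w ≤ n` is in the first part, otherwise in `Iw w ≤ Iw (n+1)`. Torsion: `g = f i`, `w = s0 + i`.
-/

set_option autoImplicit false

namespace NLT

open NLB Module

variable (p : ℕ) [Fact p.Prime]

private def wlR (N : ℕ) : Finset (List Bool) :=
  (Finset.range (N + 1)).biUnion fun i => Finset.univ.image fun f : Fin i → Bool => List.ofFn f

private theorem mem_wlR (N : ℕ) (l : List Bool) (h : l.length ≤ N) : l ∈ wlR N := by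
  refine Finset.mem_biUnion.2 ⟨l.length, Finset.mem_range.2 (by omega), ?_⟩
  exact Finset.mem_image.2 ⟨l.get, Finset.mem_univ _, List.ofFn_get l⟩

private theorem card_wlR (N : ℕ) : (wlR N).card ≤ 2 ^ (N + 1) := by
  refine Finset.card_biUnion_le.trans ?_
  have h1 : ∀ i ∈ Finset.range (N + 1), (Finset.univ.image fun f : Fin i → Bool => List.ofFn f).card ≤ 2 ^ i := by
    intro i _
    refine Finset.card_image_le.trans ?_
    simp
  refine (Finset.sum_le_sum h1).trans ?_
  have h2 := Nat.geomSum_lt (m := 2) (n := N + 1) (s := Finset.range (N + 1)) le_rfl (fun i hi => Finset.mem_range.1 hi)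
  exact h2.le

private theorem cntR : ∃ f : ℕ → F2, Function.Surjective f := by
  have h : Countable F2 := by
    have h1 : Function.Surjective (FreeGroup.mk : List (Bool × Bool) → F2) := Quot.mk_surjective
    exact h1.countable
  exact exists_surjective_nat F2

private theorem keyR (I : Submodule (ZMod p) (R p)) (b : ℕ)
    (hb : ∀ g : F2, u p g ^ p ^ b - 1 ∈ I) (g : F2) (j : ℕ) : u p g ^ p ^ (b + j) - 1 ∈ Iw p I (p ^ j) := by
  have : CharP (R p) p := charP_of_injective_algebraMap (algebraMap (ZMod p) (R p)).injective p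
  have e1 : u p g ^ p ^ (b + j) - 1 = (u p g ^ p ^ b - 1) ^ p ^ j := by
    rw [sub_pow_char_pow_of_commute _ _ (Commute.one_right _), one_pow, ← pow_mul, ← pow_add]
  rw [e1]
  exact Iw_pow p I (hb g) _

theorem exists_rel (I : Submodule (ZMod p) (R p)) (hI : TwoSided p I) (b N s0 : ℕ) (hs : 1 ≤ s0)
    (hb : ∀ g : F2, u p g ^ p ^ b - 1 ∈ I) :
    ∃ (V : Submodule (ZMod p) (R p)) (B : ℕ → Finset (R p)), V ≤ I ∧ GenI p I V B ∧
      (∀ l : List Bool, l.length ≤ N → u p (pw l) ^ p ^ (b + 1) - 1 ∈ V) ∧ (∀ g : F2, ∃ j : ℕ, u p g ^ p ^ j - 1 ∈ V) ∧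
      ∀ w, (B w).card ≤ (if w = 2 then 2 ^ (N + 1) else 0) + (if s0 ≤ w then 1 else 0) := by
  classical
  obtain ⟨f, hf⟩ := cntR
  have hp := (Fact.out : p.Prime).one_lt
  have hkey := keyR p I b hb
  have hkj : ∀ (g : F2) (j : ℕ), u p g ^ p ^ (b + j) - 1 ∈ Iw p I j := fun g j =>
    Iw_anti p I hI (Nat.lt_pow_self hp).le (hkey g j)
  let W : Finset (R p) := (wlR N).image fun l => u p (pw l) ^ p ^ (b + 1) - 1
  have hW : ∀ v ∈ W, v ∈ Iw p I 2 := by
    intro v hv
    obtain ⟨l, _, rfl⟩ := Finset.mem_image.1 hv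
    have h1 := hkey (pw l) 1
    rw [pow_one] at h1
    exact Iw_anti p I hI hp h1
  let tr : ℕ → R p := fun w => u p (f (w - s0)) ^ p ^ (b + w) - 1
  have htr : ∀ w, tr w ∈ Iw p I w := fun w => hkj _ w
  have hI1 : ∀ w, 1 ≤ w → Iw p I w ≤ I := by
    intro w hw
    have h1 := Iw_anti p I hI hw
    rwa [Iw_one p I hI] at h1
  refine ⟨Submodule.span (ZMod p) ((W : Set (R p)) ∪ {x | ∃ w, s0 ≤ w ∧ x = tr w}),
    fun w => (if w = 2 then W else ∅) ∪ (if s0 ≤ w then {tr w} else ∅), ?_, ⟨?_, ?_⟩, ?_, ?_, ?_⟩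
  · refine Submodule.span_le.2 ?_
    rintro x (hx | ⟨w, hw, rfl⟩)
    · exact hI1 2 (by omega) (hW x hx)
    · exact hI1 w (by omega) (htr w)
  · intro w v hv
    rcases Finset.mem_union.1 hv with h | h
    · split_ifs at h with h2
      · subst h2
        exact hW v h
      · exact absurd h (Finset.notMem_empty v)
    · split_ifs at h with h2
      · rw [Finset.mem_singleton] at h
        subst h
        exact htr w
      · exact absurd h (Finset.notMem_empty v)
  · intro n
    refine Submodule.span_le.2 ?_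
    rintro x (hx | ⟨w, hw, rfl⟩)
    · by_cases h : 2 ≤ n
      · refine Submodule.mem_sup_left (Submodule.mem_iSup_of_mem 2
          (Submodule.mem_iSup_of_mem (Finset.mem_Icc.2 ⟨by omega, h⟩) ?_))
        refine Submodule.subset_span (Finset.mem_coe.2 (Finset.mem_union_left _ ?_))
        rw [if_pos rfl]
        exact hx
      · exact Submodule.mem_sup_right (Iw_anti p I hI (by omega) (hW x hx))
    · by_cases h : w ≤ n
      · refine Submodule.mem_sup_left (Submodule.mem_iSup_of_mem w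
          (Submodule.mem_iSup_of_mem (Finset.mem_Icc.2 ⟨by omega, h⟩) ?_))
        refine Submodule.subset_span (Finset.mem_coe.2 (Finset.mem_union_right _ ?_))
        rw [if_pos hw]
        exact Finset.mem_singleton_self _
      · exact Submodule.mem_sup_right (Iw_anti p I hI (by omega) (htr w))
  · intro l hl
    exact Submodule.subset_span (Or.inl (Finset.mem_coe.2 (Finset.mem_image.2 ⟨l, mem_wlR N l hl, rfl⟩)))
  · intro g
    obtain ⟨i, rfl⟩ := hf g
    refine ⟨b + (s0 + i), Submodule.subset_span (Or.inr ⟨s0 + i, by omega, ?_⟩)⟩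
    show _ = u p (f (s0 + i - s0)) ^ p ^ (b + (s0 + i)) - 1
    rw [Nat.add_sub_cancel_left]
  · intro w
    refine (Finset.card_union_le _ _).trans (Nat.add_le_add ?_ ?_)
    · split_ifs
      · exact Finset.card_image_le.trans (card_wlR N)
      · exact le_of_eq Finset.card_empty
    · split_ifs
      · exact le_of_eq (Finset.card_singleton _)
      · exact le_of_eq Finset.card_empty

end NLT
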