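import Pool.Agent.Lib.NLT.Defs

/-!
# NLT / Tra: a transversal

PROOF IN WORDS. Pure linear algebra. Lift the basis `finBasis` of `R ⧸ I` to `R`, an injective family; `T` its image. For `x`: the class of `x` is a combination of the classes, so `x` minus this combination is in `I`.
-/

set_option autoImplicit false

namespace NLT

open NLB Module

variable (p : ℕ) [Fact p.Prime]

theorem exists_T (I : Submodule (ZMod p) (R p)) [FiniteDimensional (ZMod p) (R p ⧸ I)] :
    ∃ T : Finset (R p), T.card = finrank (ZMod p) (R p ⧸ I) ∧ ∀ x, x ∈ Submodule.span (ZMod p) (T : Set (R p)) ⊔ I := by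
  classical
  choose τ hτ using fun i => Submodule.mkQ_surjective I (finBasis (ZMod p) (R p ⧸ I) i)
  have hinj : Function.Injective τ := fun i j hij => (finBasis (ZMod p) (R p ⧸ I)).injective (by rw [← hτ i, ← hτ j, hij])
  refine ⟨Finset.univ.map ⟨τ, hinj⟩, by rw [Finset.card_map, Finset.card_univ, Fintype.card_fin], fun x => ?_⟩
  have h1 : I.mkQ x ∈ Submodule.span (ZMod p) (Set.range (finBasis (ZMod p) (R p ⧸ I))) := by
    rw [(finBasis (ZMod p) (R p ⧸ I)).span_eq]
    exact Submodule.mem_top
  have h2 : Set.range (finBasis (ZMod p) (R p ⧸ I)) = I.mkQ '' (Set.range τ) := by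
    rw [← Set.range_comp]
    congr 1
    funext i
    exact (hτ i).symm
  rw [h2, ← Submodule.map_span] at h1
  obtain ⟨y, hy, hxy⟩ := h1
  have h3 : (Finset.univ.map ⟨τ, hinj⟩ : Finset (R p)) = (Finset.univ.map ⟨τ, hinj⟩ : Finset (R p)) := rfl
  have h4 : ((Finset.univ.map ⟨τ, hinj⟩ : Finset (R p)) : Set (R p)) = Set.range τ := by
    ext z
    simp
  rw [h4]
  have h5 : x - y ∈ I := (Submodule.Quotient.eq I).1 hxy.symm
  rw [show x = y + (x - y) by abel]
  exact Submodule.add_mem_sup hy h5

end NLT
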