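import Pool.Agent.Lib.NLT.Mul
import Pool.Agent.Lib.NLT.Frm
import Pool.Agent.Lib.NLT.Fre2
import Pool.Agent.Lib.NLT.Gsi
import Pool.Agent.Lib.NLT.Tra
import Pool.Agent.Lib.NLT.Ik
import Pool.Agent.Lib.NLT.Nil
import Pool.Agent.Lib.NLT.Idx
import Pool.Agent.Lib.NLT.Ksg
import Pool.Agent.Lib.NLT.Rel
import Pool.Agent.Lib.NLT.Num2
import Pool.Agent.Lib.NLT.Gro
import Pool.Agent.Lib.NLT.Tun

/-!
# NLT / Fin: assembly
-/

set_option autoImplicit false

namespace NLT

open NLB Module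

section

variable (p : ℕ) [Fact p.Prime]

private theorem Dl_two : TwoSided p (Dl p) := by
  constructor
  · intro a x hx
    have h : eps p x = 0 := hx
    show eps p (a * x) = 0
    rw [map_mul, h, mul_zero]
  · intro a x hx
    have h : eps p x = 0 := hx
    show eps p (x * a) = 0
    rw [map_mul, h, zero_mul]

private theorem prod_two (I J : Submodule (ZMod p) (R p)) (hI : TwoSided p I) (hJ : TwoSided p J) : TwoSided p (I * J) := by
  constructor
  · intro a x hx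
    refine Submodule.mul_induction_on (C := fun x => a * x ∈ I * J) hx (fun m hm i hi => ?_) fun x y hx hy => ?_
    · rw [← mul_assoc]
      exact Submodule.mul_mem_mul (hI.l a m hm) hi
    · rw [mul_add]
      exact Submodule.add_mem _ hx hy
  · intro a x hx
    refine Submodule.mul_induction_on (C := fun x => x * a ∈ I * J) hx (fun m hm i hi => ?_) fun x y hx hy => ?_
    · rw [mul_assoc]
      exact Submodule.mul_mem_mul hm (hJ.r a i hi)
    · rw [add_mul]
      exact Submodule.add_mem _ hx hy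

private theorem pow_char (b j : ℕ) (g : F2) : u p g ^ p ^ (b + j) - 1 = (u p g ^ p ^ b - 1) ^ p ^ j := by
  have : CharP (R p) p := charP_of_injective_algebraMap (algebraMap (ZMod p) (R p)).injective p
  rw [sub_pow_char_pow_of_commute _ _ (Commute.one_right _), one_pow, ← pow_mul, ← pow_add]

theorem good_zero : Good p ⊤ 0 1 := by
  refine ⟨inferInstance, inferInstance, fun g => Subgroup.mem_top _, ?_⟩
  rw [Subgroup.index_top]

theorem good_succ (K : Subgroup F2) (b m : ℕ) (h : Good p K b m) : ∃ K', Good p K' (b + 1) (p ^ m) := by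
  obtain ⟨hn, hf, he, hi⟩ := h
  obtain ⟨c, hc⟩ := nil_IK p K hn hf b he
  have hQ := prod_two p _ _ (IK_two p K hn) (Dl_two p)
  have hA := fin_rel p (IK p K) c hc
  obtain ⟨K', hK', hn', hf'⟩ := exists_KS p _ hQ (c + 1) hA
  refine ⟨K', hn', hf', fun g => ?_, ?_⟩
  · rw [hK', u_pow, pow_char p b 1 g, pow_one]
    have h1 : u p g ^ p ^ b - 1 ∈ IK p K := by
      rw [← u_pow]
      exact IK_mem p K _ (he g)
    obtain ⟨r, hr⟩ : ∃ r, p = r + 2 := ⟨p - 2, by have := (Fact.out : p.Prime).two_le; omega⟩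
    have h2 : (u p g ^ p ^ b - 1) ^ p = (u p g ^ p ^ b - 1) * ((u p g ^ p ^ b - 1) ^ (r + 1)) := by
      rw [← pow_succ', ← hr]
    rw [h2, pow_succ]
    exact Submodule.mul_mem_mul h1 ((Dl_two p).l _ _ (IK_le p K h1))
  · exact idx_le p K hn hf c hc m (hi.trans (IK_idx p K hf)) K' hK' hf'

theorem exists_good (b : ℕ) : ∃ K, Good p K b (tower p b) := by
  induction b with
  | zero => exact ⟨⊤, good_zero p⟩
  | succ b ih =>
    obtain ⟨K, hK⟩ := ih
    exact good_succ p K b _ hK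

theorem exists_unb (b N : ℕ) (hN : 2 ^ (N + 4) ≤ tower p b) :
    ∃ V : Submodule (ZMod p) (R p), (∀ l : List Bool, l.length ≤ N → u p (pw l) ^ p ^ (b + 1) - 1 ∈ V) ∧
      (∀ g : F2, ∃ j : ℕ, u p g ^ p ^ j - 1 ∈ V) ∧ ∀ C : ℕ, ∃ n : ℕ, C < bb p V n := by
  obtain ⟨K, hn, hf, he, hi⟩ := exists_good p b
  obtain ⟨c, hc⟩ := nil_IK p K hn hf b he
  have hI := IK_two p K hn
  have hfin : FiniteDimensional (ZMod p) (R p ⧸ IK p K) := IK_fin p K hf
  have hm : 2 ^ (N + 4) ≤ finrank (ZMod p) (R p ⧸ IK p K) := hN.trans (hi.trans (IK_idx p K hf))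
  obtain ⟨ι, _, _, β, D, hι, hfr⟩ := exists_fr p (IK p K) hI.l c hc
  obtain ⟨T, hT, hTs⟩ := exists_T p (IK p K)
  obtain ⟨t, s0, ht, ht1, hs0, hsum⟩ := num2 (finrank (ZMod p) (R p ⧸ IK p K)) N hm
  obtain ⟨V, B, hV, hB, hw, htor, hcard⟩ := exists_rel p (IK p K) hI b N s0 hs0 (fun g => by
    rw [← u_pow]
    exact IK_mem p K _ (he g))
  refine ⟨V, hw, htor, fun C => ?_⟩
  have hineq := gs_ineq_rel p (IK p K) V hI c hc hV β D hfr T hTs B hB
  rw [hι] at hineq
  have hm1 : 1 ≤ finrank (ZMod p) (R p ⧸ IK p K) := le_trans Nat.one_le_two_pow hm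
  have h1 : 1 ≤ bI p (IK p K) V 1 := by
    have h2 := hineq 0
    simp only [Finset.Icc_eq_empty_of_lt (show (0 : ℕ) < 1 by norm_num), Finset.sum_empty, add_zero, zero_add] at h2
    exact le_trans hm1 (le_trans (Nat.le_add_right _ _) h2)
  have hgrow := growth_rel (finrank (ZMod p) (R p ⧸ IK p K) + 1) (bI p (IK p K) V) (fun w => T.card * (B w).card) t ht ht1.le h1
    (fun n => le_trans (by omega) (hineq n)) (fun M => by
      refine le_trans (Finset.sum_le_sum fun w _ => ?_) (hsum M)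
      refine mul_le_mul_of_nonneg_right ?_ (by positivity)
      rw [hT]
      exact_mod_cast Nat.mul_le_mul_left _ (hcard w))
  have hτ : 1 < 1 / t := by
    rw [lt_div_iff₀ ht, one_mul]
    exact ht1
  obtain ⟨n, hn'⟩ := pow_unbounded_of_one_lt (C : ℝ) hτ
  refine ⟨c * (n + 1), ?_⟩
  have h3 : C < bI p (IK p K) V (n + 1) := by exact_mod_cast hn'.trans_le (hgrow n)
  refine h3.trans_le ?_
  unfold bI bb
  have hfd := fin_A p (c * (n + 1))
  have hfd' : FiniteDimensional (ZMod p) (R p ⧸ (Jd p V ⊔ A p (c * (n + 1)))) :=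
    Module.Finite.of_surjective (Submodule.factor (le_sup_right : A p (c * (n + 1)) ≤ Jd p V ⊔ A p (c * (n + 1))))
      (Submodule.factor_surjective _)
  have hle : Jd p V ⊔ A p (c * (n + 1)) ≤ Jd p V ⊔ Iw p (IK p K) (n + 1) := sup_le_sup le_rfl (A_le_Iw p (IK p K) c hc (n + 1))
  exact LinearMap.finrank_le_finrank_of_surjective (f := Submodule.factor hle) (Submodule.factor_surjective _)

end

/-- the finite groups and the infinite torsion group -/
theorem tower_main (p a : ℕ) (hp : p.Prime) (k n N : ℕ) (hk : 2 ≤ k) (hn : p ^ a ∣ n) (hN : 2 ^ (N + 4) ≤ tower p (a - 1)) :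
    (∀ C : ℕ, ∃ (G : Type) (_ : Group G) (S : Finset G), Finite G ∧ IsPGroup p G ∧ S.card = k ∧
      Subgroup.closure (S : Set G) = ⊤ ∧ Cond N n S ∧ C < Nat.card G) ∧
    ∃ (G : Type) (_ : Group G) (S : Finset G), Infinite G ∧ IsPGroup p G ∧ S.card = k ∧ Subgroup.closure (S : Set G) = ⊤ ∧
      Cond N n S ∧ ∀ x : G, x ≠ 1 → ∃ (Q : Type) (_ : Group Q) (f : G →* Q), Finite Q ∧ f x ≠ 1 := by
  have : Fact p.Prime := ⟨hp⟩
  obtain ⟨b, rfl⟩ : ∃ b, a = b + 1 := by
    rcases a with _ | b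
    · have h1 : tower p (0 - 1) = 1 := rfl
      rw [h1] at hN
      have h2 : 2 ^ 1 ≤ 2 ^ (N + 4) := Nat.pow_le_pow_right (by norm_num) (by omega)
      omega
    · exact ⟨b, rfl⟩
  rw [Nat.add_sub_cancel] at hN
  obtain ⟨V, hw, ht, hb⟩ := exists_unb p b N hN
  have hpq : p ∣ p ^ (b + 1) := dvd_pow_self p (Nat.succ_ne_zero b)
  refine ⟨fun C => ?_, ?_⟩
  · obtain ⟨n0, hn0⟩ := hb C
    obtain ⟨G, _, S, hfin, hpg, hSc, hcl, hcond, hcard⟩ := act p V (p ^ (b + 1)) N n0 hw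
    obtain ⟨G', _, S', hfin', hpg', hSc', hcl', hcond', hcard'⟩ := pad p N (p ^ (b + 1)) k hpq hk G hpg S hSc hcl hcond
    refine ⟨G', inferInstance, S', hfin', hpg', hSc', hcl', ?_, by omega⟩
    intro l hl hx
    obtain ⟨c, rfl⟩ := hn
    rw [pow_mul, hcond' l hl hx, one_pow]
  · obtain ⟨G, _, S, hinf, hpg, hSc, hcl, hcond, hR⟩ := torsion_unb p (p ^ (b + 1)) N V hw ht hb
    obtain ⟨G', _, S', hinf', hpg', hSc', hcl', hcond', hR'⟩ := pad_inf p N (p ^ (b + 1)) k hpq hk G hpg S hSc hcl hcond hR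
    refine ⟨G', inferInstance, S', hinf', hpg', hSc', hcl', ?_, hR'⟩
    intro l hl hx
    obtain ⟨c, rfl⟩ := hn
    rw [pow_mul, hcond' l hl hx, one_pow]

end NLT
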