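import Pool.Agent.Lib.NLT.Frm
import Pool.Agent.Lib.NLB.Fox

/-!
# NLT / Fre1: a free basis of a left ideal of codimension one in a free one

PROOF IN WORDS. Every `x ∈ W` is `c • x0` modulo `W'`, `c` unique (`x0 ∉ W'`, a field); write `β i ≡ c i • x0` (`choose`). For `a : R`: `a * β i ≡ (eps a * c i) • x0`, because `a - eps a • 1 ∈ A 1` (`mem_A_one`) and `hA`. So for `x ∈ W`, `x = ∑ D i x * β i`: `x ∈ W'` iff `∑ i, eps (D i x) * c i = 0`.
Some `c i0 ≠ 0` (else `W ≤ W'`, against `x0`). Let `μ i = c i / c i0` and `κ = Bool ⊕ {i // i ≠ i0}`; `β' (inl b) = X b * β i0`, `β' (inr i) = β i - μ i • β i0`. `E x = D i0 x + ∑ i ≠ i0, μ i • D i x` (linear), `D' (inl b) x = D_b (E x)` with the Fox derivatives `D_b` (`fox p : ∃ D, IsFox p D`), `D' (inr i) x = D i x`.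
`mem`: `X b * β i0 ∈ W'` by `hA` (`u_sub_one_mem`), `β i - μ i • β i0 ≡ (c i - μ i * c i0) • x0 = 0`. `fund`: for `x ∈ W'`: `x = E x * β i0 + ∑ i ≠ i0, D i x * (β i - μ i • β i0)` and `eps (E x) * c i0 = ∑ i, eps (D i x) * c i = 0`, so `E x = D_f (E x) * X false + D_t (E x) * X true` (`IsFox.fund`).
`dual`: `E (a * X b * β i0) = a * X b`, `IsFox.mulX`; `E (a * (β l - μ l • β i0)) = μ l • a - μ l • a = 0`; `D i` of these by `dual`. Card: `Fintype.card κ = 2 + (card ι - 1)`. (`Fintype.sum_sum_type`, `Fintype.sum_bool`, `Finset.sum_subtype` or `Fintype.sum_eq_add_sum_subtype_ne`.)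
-/

set_option autoImplicit false

namespace NLT

open NLB Module

variable (p : ℕ) [Fact p.Prime]

theorem fr_step (W W' : Submodule (ZMod p) (R p)) (hW : ∀ a x : R p, x ∈ W → a * x ∈ W) (hle : W' ≤ W)
    (hA : ∀ a ∈ A p 1, ∀ x ∈ W, a * x ∈ W') (x0 : R p) (h0 : x0 ∈ W) (h0' : x0 ∉ W')
    (hs : ∀ x ∈ W, ∃ c : ZMod p, x - c • x0 ∈ W') {ι : Type} [Fintype ι] [DecidableEq ι] (β : ι → R p)
    (D : ι → (R p →ₗ[ZMod p] R p)) (h : IsFr p W β D) :
    ∃ (κ : Type) (_ : Fintype κ) (_ : DecidableEq κ) (β' : κ → R p) (D' : κ → (R p →ₗ[ZMod p] R p)),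
      Fintype.card κ = Fintype.card ι + 1 ∧ IsFr p W' β' D' := by
  classical
  obtain ⟨F, hF⟩ := fox p
  choose c hc using fun i => hs _ (h.mem i)
  have key : ∀ (i : ι) (a : R p), a * β i - (eps p a * c i) • x0 ∈ W' := by
    intro i a
    have h1 : (a - algebraMap (ZMod p) (R p) (eps p a)) * β i ∈ W' := by
      refine hA _ ((mem_A_one p _).2 ?_) _ (h.mem i)
      rw [map_sub, AlgHom.commutes]
      simp
    have h2 : (eps p a) • (β i - c i • x0) ∈ W' := Submodule.smul_mem _ _ (hc i)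
    have h3 : a * β i - (eps p a * c i) • x0 =
        (a - algebraMap (ZMod p) (R p) (eps p a)) * β i + (eps p a) • (β i - c i • x0) := by
      rw [sub_mul, smul_sub, smul_smul, ← Algebra.smul_def]
      abel
    rw [h3]
    exact W'.add_mem h1 h2
  have hi0 : ∃ i0, c i0 ≠ 0 := by
    by_contra hne
    push Not at hne
    apply h0'
    rw [h.fund x0 h0]
    refine Submodule.sum_mem _ fun i _ => ?_
    have h1 := key i (D i x0)
    rwa [hne i, mul_zero, zero_smul, sub_zero] at h1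
  obtain ⟨i0, hi0⟩ := hi0
  have hsum : ∀ x ∈ W', ∑ i, eps p (D i x) * c i = 0 := by
    intro x hx
    by_contra hne
    apply h0'
    have e1 : (∑ i, eps p (D i x) * c i) • x0 ∈ W' := by
      have e2 : ∑ i, (D i x * β i - (eps p (D i x) * c i) • x0) ∈ W' := Submodule.sum_mem _ fun i _ => key i _
      rw [Finset.sum_sub_distrib, ← h.fund x (hle hx), ← Finset.sum_smul] at e2
      have e3 := W'.sub_mem hx e2
      rwa [sub_sub_cancel] at e3
    have e4 := W'.smul_mem (∑ i, eps p (D i x) * c i)⁻¹ e1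
    rwa [smul_smul, inv_mul_cancel₀ hne, one_smul] at e4
  obtain ⟨μ, hμ⟩ : ∃ μ : ι → ZMod p, ∀ i, μ i = c i / c i0 := ⟨fun i => c i / c i0, fun _ => rfl⟩
  have hμ0 : μ i0 = 1 := by rw [hμ, div_self hi0]
  obtain ⟨E, hE⟩ : ∃ E : R p →ₗ[ZMod p] R p, ∀ x, E x = ∑ i, μ i • D i x :=
    ⟨∑ i, μ i • D i, fun x => by simp [LinearMap.sum_apply]⟩
  have hEb : ∀ (a : R p) (j : ι), E (a * β j) = μ j • a := by
    intro a j
    rw [hE]
    simp [h.dual]
  have hE0 : ∀ x ∈ W', eps p (E x) = 0 := by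
    intro x hx
    have h1 := hsum x hx
    have h2 : eps p (E x) * c i0 = ∑ i, eps p (D i x) * c i := by
      rw [hE, map_sum, Finset.sum_mul]
      refine Finset.sum_congr rfl fun i _ => ?_
      rw [map_smul, hμ, smul_eq_mul]
      field_simp
    rw [h1] at h2
    exact (mul_eq_zero.1 h2).resolve_right hi0
  refine ⟨Bool ⊕ {i : ι // i ≠ i0}, inferInstance, inferInstance,
    Sum.elim (fun b => X p b * β i0) (fun i => β i - μ i • β i0),
    Sum.elim (fun b => F b ∘ₗ E) (fun i => D i), ?_, ?_, ?_, ?_⟩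
  · have h1 := Fintype.sum_eq_add_sum_subtype_ne (fun _ : ι => 1) i0
    rw [Fintype.card_sum, Fintype.card_bool]
    simp only [Finset.sum_const, Finset.card_univ, smul_eq_mul, mul_one] at h1
    omega
  · rintro (b | i)
    · exact hA _ (u_sub_one_mem p (FreeGroup.of b)) _ (h.mem i0)
    · show β i - μ i • β i0 ∈ W'
      have h1 := W'.sub_mem (hc i) (W'.smul_mem (μ i) (hc i0))
      have h2 : β i - c i • x0 - μ i • (β i0 - c i0 • x0) = β i - μ i • β i0 := by
        rw [smul_sub, smul_smul, hμ i, div_mul_cancel₀ _ hi0]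
        abel
      rwa [h2] at h1
  · intro x hx
    rw [Fintype.sum_sum_type, Fintype.sum_bool]
    simp only [Sum.elim_inl, Sum.elim_inr, LinearMap.comp_apply]
    have h1 := Fintype.sum_eq_add_sum_subtype_ne (fun i : ι => D i x * (β i - μ i • β i0)) i0
    rw [hμ0, one_smul, sub_self, mul_zero, zero_add] at h1
    rw [← h1]
    have h2 : ∑ i, D i x * (β i - μ i • β i0) = x - E x * β i0 := by
      rw [hE, Finset.sum_mul]
      simp only [mul_sub, Finset.sum_sub_distrib]
      rw [← h.fund x (hle hx)]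
      congr 1
      exact Finset.sum_congr rfl fun i _ => by rw [mul_smul_comm, smul_mul_assoc]
    rw [h2]
    have h3 := hF.fund (E x)
    rw [hE0 x hx, map_zero, zero_add] at h3
    have h4 : F true (E x) * (X p true * β i0) + F false (E x) * (X p false * β i0) = E x * β i0 := by
      conv_rhs => rw [h3]
      rw [add_mul, mul_assoc, mul_assoc, add_comm]
    rw [h4]
    abel
  · rintro (b | i) (b' | j) a
    · simp only [Sum.elim_inl, LinearMap.comp_apply, Sum.inl.injEq]
      rw [← mul_assoc, hEb, hμ0, one_smul, hF.mulX]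
    · simp only [Sum.elim_inl, Sum.elim_inr, LinearMap.comp_apply, reduceCtorEq, if_false]
      rw [mul_sub, mul_smul_comm, map_sub, map_smul, hEb, hEb, hμ0, one_smul, sub_self, map_zero]
    · simp only [Sum.elim_inl, Sum.elim_inr, reduceCtorEq, if_false]
      rw [← mul_assoc, h.dual, if_neg i.2]
    · simp only [Sum.elim_inr, Sum.inr.injEq]
      rw [mul_sub, mul_smul_comm, map_sub, map_smul, h.dual, h.dual, if_neg i.2, smul_zero, sub_zero]
      simp only [Subtype.ext_iff]

end NLT
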