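import Pool.Agent.Lib.NLT.Defs

/-!
# NLT / Mul: powers of a two-sided ideal

PROOF IN WORDS. `Iw (n+1) = Iw n * I`, `Iw 0 = ⊤`. Model: `NLB/Aug.lean` (`aug_l`, `aug_r`, `mul_mem_A`, `A_anti`, `pow_mem_A`), the same proofs with `I` in place of the kernel of `eps` (`TwoSided` gives closure under left and right multiplication; `Submodule.mul_induction_on`).
`Iw_one`: `⊤ * I ≤ I` and `x = 1 * x`. `Iw_pow`: `x ^ s ∈ Iw s` by induction (`pow_succ`, `Submodule.mul_mem_mul`). `A_le_Iw`: first `A (i + j) ≤ A i * A j` (induction on `j`: `A (i + 0) = A i ≤ A i * A 0`, `x = x * 1`;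
`A (i + (j+1)) = A (i+j) * D ≤ A i * A j * D = A i * A (j+1)`), then induction on `n`: `A (c * (n+1)) = A (c*n + c) ≤ A (c*n) * A c ≤ Iw n * I`.
-/

set_option autoImplicit false

namespace NLT

open NLB Module

variable (p : ℕ) [Fact p.Prime]

private theorem mu_l (I : Submodule (ZMod p) (R p)) {n : ℕ} (a : R p) {x : R p} (hx : x ∈ Iw p I n) : a * x ∈ Iw p I n := by
  induction n generalizing x with
  | zero => exact Submodule.mem_top
  | succ n ih =>
    refine Submodule.mul_induction_on (C := fun x => a * x ∈ Iw p I (n + 1)) hx (fun m hm i hi => ?_) fun x y hx hy => ?_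
    · rw [← mul_assoc]
      exact Submodule.mul_mem_mul (ih hm) hi
    · rw [mul_add]
      exact Submodule.add_mem _ hx hy

private theorem mu_r (I : Submodule (ZMod p) (R p)) (hI : TwoSided p I) {n : ℕ} (a : R p) {x : R p} (hx : x ∈ Iw p I n) :
    x * a ∈ Iw p I n := by
  cases n with
  | zero => exact Submodule.mem_top
  | succ n =>
    refine Submodule.mul_induction_on (C := fun x => x * a ∈ Iw p I (n + 1)) hx (fun m hm i hi => ?_) fun x y hx hy => ?_
    · rw [mul_assoc]
      exact Submodule.mul_mem_mul hm (hI.r a i hi)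
    · rw [add_mul]
      exact Submodule.add_mem _ hx hy

private theorem mu_s (I : Submodule (ZMod p) (R p)) (hI : TwoSided p I) (n : ℕ) : Iw p I (n + 1) ≤ Iw p I n := by
  intro x hx
  exact Submodule.mul_induction_on (C := fun x => x ∈ Iw p I n) hx (fun m hm i _ => mu_r p I hI i hm)
    fun x y hx hy => Submodule.add_mem _ hx hy

theorem Iw_two (I : Submodule (ZMod p) (R p)) (hI : TwoSided p I) (n : ℕ) : TwoSided p (Iw p I n) := by
  exact ⟨fun a x hx => mu_l p I a hx, fun a x hx => mu_r p I hI a hx⟩

theorem Iw_mul (I : Submodule (ZMod p) (R p)) (hI : TwoSided p I) {m n : ℕ} {a b : R p} (ha : a ∈ Iw p I m) (hb : b ∈ Iw p I n) :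
    a * b ∈ Iw p I (m + n) := by
  induction n generalizing b with
  | zero => exact mu_r p I hI b ha
  | succ n ih =>
    refine Submodule.mul_induction_on (C := fun x => a * x ∈ Iw p I (m + (n + 1))) hb (fun y hy i hi => ?_) fun x y hx hy => ?_
    · rw [← mul_assoc]
      exact Submodule.mul_mem_mul (ih hy) hi
    · rw [mul_add]
      exact Submodule.add_mem _ hx hy

theorem Iw_anti (I : Submodule (ZMod p) (R p)) (hI : TwoSided p I) {m n : ℕ} (h : m ≤ n) : Iw p I n ≤ Iw p I m := by
  exact antitone_nat_of_succ_le (mu_s p I hI) h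

theorem Iw_one (I : Submodule (ZMod p) (R p)) (hI : TwoSided p I) : Iw p I 1 = I := by
  refine le_antisymm (fun x hx => ?_) fun x hx => ?_
  · exact Submodule.mul_induction_on (C := fun x => x ∈ I) hx (fun m _ i hi => hI.l m i hi)
      fun x y hx hy => Submodule.add_mem _ hx hy
  · have h := Submodule.mul_mem_mul (M := Iw p I 0) (N := I) (m := (1 : R p)) (n := x) Submodule.mem_top hx
    rwa [one_mul] at h

theorem Iw_pow (I : Submodule (ZMod p) (R p)) {x : R p} (hx : x ∈ I) (s : ℕ) : x ^ s ∈ Iw p I s := by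
  induction s with
  | zero => exact Submodule.mem_top
  | succ s ih =>
    rw [pow_succ]
    exact Submodule.mul_mem_mul ih hx

private theorem mu_add (i j : ℕ) : A p (i + j) ≤ A p i * A p j := by
  induction j with
  | zero =>
    intro x hx
    have h := Submodule.mul_mem_mul (M := A p i) (N := A p 0) (m := x) (n := (1 : R p)) hx Submodule.mem_top
    rwa [mul_one] at h
  | succ j ih =>
    have h1 : A p (i + (j + 1)) = A p (i + j) * LinearMap.ker (eps p).toLinearMap := rfl
    have h2 : A p (j + 1) = A p j * LinearMap.ker (eps p).toLinearMap := rfl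
    rw [h1, h2, ← mul_assoc]
    exact mul_le_mul_left ih _

theorem A_le_Iw (I : Submodule (ZMod p) (R p)) (c : ℕ) (hc : A p c ≤ I) (n : ℕ) : A p (c * n) ≤ Iw p I n := by
  induction n with
  | zero => exact le_top
  | succ n ih =>
    have h1 : A p (c * (n + 1)) ≤ A p (c * n) * A p c := mu_add p (c * n) c
    exact h1.trans (mul_le_mul' ih hc)

end NLT
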